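import Mathlib
import Pool.Agent.H242R3.ES.Full
import Pool.Agent.H841.ES.K8a
import Pool.Agent.Q223.K8b
import Pool.Agent.Q223.Mob

/-!
# MP_dcc731_co: the 600-cell and the 120-cell are Möbius unique
-/

set_option autoImplicit false

namespace Pool.Agent.Results.MP_dcc731_co.SixHundredCell

open Matrix

/-- The ambient space `ℝ⁴`. -/
abbrev E4 : Type := Fin 4 → ℝ

/-- A (full-dimensional) convex 4-polytope: the convex hull of finitely many points, with nonempty
interior. -/
def IsPolytope4 (P : Set E4) : Prop :=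
  (∃ S : Finset E4, P = convexHull ℝ (S : Set E4)) ∧ (interior P).Nonempty

/-- Combinatorial equivalence: a bijection between the vertices which preserves, in both
directions, which sets of vertices span a face. -/
def CombEquiv (P Q : Set E4) : Prop :=
  ∃ f : E4 → E4, Set.BijOn f (P.extremePoints ℝ) (Q.extremePoints ℝ) ∧
    ∀ S ⊆ P.extremePoints ℝ,
      (IsExposed ℝ P (convexHull ℝ S) ↔ IsExposed ℝ Q (convexHull ℝ (f '' S)))

/-- `P` is edge-scribed: the line through every edge `[a, b]` is tangent to the unit sphere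
`S³`, at a point of the edge. -/
def EdgeScribed (P : Set E4) : Prop :=
  ∀ a ∈ P.extremePoints ℝ, ∀ b ∈ P.extremePoints ℝ, a ≠ b → IsExposed ℝ P (segment ℝ a b) →
    ∃ p ∈ segment ℝ a b, ∑ i, p i ^ 2 = 1 ∧ ∀ t : ℝ, 1 ≤ ∑ i, (a i + t * (b i - a i)) ^ 2

/-- The unit sphere `S³`. -/
def sphere3 : Set E4 := {x | ∑ i, x i ^ 2 = 1}

/-- The cap of `S³` visible from `v`. -/
def cap (v : E4) : Set E4 := {x ∈ sphere3 | 1 ≤ ∑ i, x i * v i}

/-- The (Lorentz) matrices `M` with `Mᵀ J M = J`, where `J = diag(-1, 1, 1, 1, 1)`. -/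
def IsLorentz (M : Matrix (Option (Fin 4)) (Option (Fin 4)) ℝ) : Prop :=
  M.transpose * Matrix.diagonal (fun i => Option.elim i (-1 : ℝ) (fun _ => (1 : ℝ))) * M
    = Matrix.diagonal (fun i => Option.elim i (-1 : ℝ) (fun _ => (1 : ℝ)))

/-- The vector `(1, x)`. -/
def lift (x : E4) : Option (Fin 4) → ℝ := fun i => Option.elim i (1 : ℝ) x

/-- The projective map of `ℝ⁴` given by the matrix `M`. For a Lorentz matrix `M` its restriction to
`S³` is a Möbius transformation of `S³`, and all Möbius transformations arise in this way. -/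
noncomputable def mob (M : Matrix (Option (Fin 4)) (Option (Fin 4)) ℝ) (x : E4) : E4 :=
  fun j => (M *ᵥ lift x) (some j) / (M *ᵥ lift x) none

/-- The combinatorial type of `T` is Möbius unique: for any two edge-scribed realizations
`P`, `Q` of the combinatorial type of the polytope `T` there is a Möbius transformation of `S³`,
given by a Lorentz matrix `M`, which maps the family of caps of `P` onto the family of caps of `Q`
(and, as a projective map, `P` onto `Q`). -/
def MobiusUnique (T : Set E4) : Prop :=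
  ∀ P Q : Set E4, IsPolytope4 P → IsPolytope4 Q → EdgeScribed P → EdgeScribed Q →
    CombEquiv P T → CombEquiv Q T →
      ∃ M : Matrix (Option (Fin 4)) (Option (Fin 4)) ℝ, IsLorentz M ∧
        (∀ x ∈ sphere3, (M *ᵥ lift x) none ≠ 0) ∧ Set.BijOn (mob M) sphere3 sphere3 ∧
        (∀ x ∈ P, (M *ᵥ lift x) none ≠ 0) ∧ mob M '' P = Q ∧
        (fun c => mob M '' c) '' (cap '' P.extremePoints ℝ) = cap '' Q.extremePoints ℝ

open Real in
/-- The vertices of the regular 600-cell with circumradius `1`: the `8` vectors `± eᵢ`, the `16`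
vectors `(±1/2, ±1/2, ±1/2, ±1/2)` and the `96` vectors obtained from
`(± φ/2, ± 1/2, ± φ⁻¹/2, 0)` by even permutations of the coordinates, `φ` the golden ratio. -/
noncomputable def vert600 : Set E4 :=
  {x | ∃ i, ∃ s : ℝ, (s = 1 ∨ s = -1) ∧ x = Pi.single i s} ∪
  {x | ∀ i, x i = 1 / 2 ∨ x i = -1 / 2} ∪
  {x | ∃ σ : Equiv.Perm (Fin 4), σ ∈ alternatingGroup (Fin 4) ∧ ∃ s : Fin 4 → ℝ,
    (∀ i, s i = 1 ∨ s i = -1) ∧
      ∀ i, x (σ i) = s i * (![goldenRatio / 2, 1 / 2, goldenRatio⁻¹ / 2, 0] : Fin 4 → ℝ) i}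

/-- The regular 600-cell `{3,3,5}`. -/
noncomputable def cell600 : Set E4 := convexHull ℝ vert600

/-- The regular 120-cell `{5,3,3}`: the polar of the 600-cell. -/
noncomputable def cell120 : Set E4 := {x | ∀ v ∈ cell600, ∑ i, x i * v i ≤ 1}

open Pool.Agent.H242R3.ES in
theorem edge_point {P : Set E4} (V : Finset E4) (hV : (V : Set E4) = P.extremePoints ℝ)
    (hP : convexHull ℝ (V : Set E4) = P) (hint : (interior P).Nonempty) (hE : EdgeScribed P) :
    ∃ p ∈ P, ∑ i, p i ^ 2 ≤ 1 := by
  classical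
  have hEP : EP V = P.extremePoints ℝ := by
    show Set.extremePoints ℝ (convexHull ℝ (V : Set E4)) = _
    rw [hP]
  have hTR1 : TR1 := Pool.Agent.H666R3.ES.t Pool.Agent.H780R3.ES.t
  obtain ⟨hfin, hvert, hspan⟩ := hTR1 4 (by norm_num) V (by rw [hP]; exact hint)
  have : Fintype (EP V) := Fintype.ofFinite _
  -- two distinct vertices
  have hne : ∃ v w : EP V, v ≠ w := by
    by_contra hcon
    push Not at hcon
    have hsub : Subsingleton (EP V) := ⟨hcon⟩
    have hPs : P.Subsingleton := by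
      rw [← hP]
      have : (V : Set E4).Subsingleton := by
        rw [hV, ← hEP]
        intro a ha b hb
        exact congrArg Subtype.val (hcon ⟨a, ha⟩ ⟨b, hb⟩)
      rcases this.eq_empty_or_singleton with h | ⟨x, h⟩
      · rw [h, convexHull_empty]; exact Set.subsingleton_empty
      · rw [h, convexHull_singleton]; exact Set.subsingleton_singleton
    have : interior P = ∅ := by
      rcases hPs.eq_empty_or_singleton with h | ⟨x, h⟩
      · rw [h, interior_empty]
      · rw [h, interior_singleton]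
    rw [this] at hint
    exact Set.not_nonempty_empty hint
  obtain ⟨v, w, hvw⟩ := hne
  obtain ⟨y, a, ha, hak, hw⟩ := Pool.Agent.H242R3.ES.Full.genV (EP V) (LV 4)
    (fun i : EP V => hom (i : E4)) hvert v Set.univ ⟨0, fun _ => le_rfl, fun i => by simp⟩
    (Set.mem_univ _) w (Set.mem_univ _)
  have hk : ∃ k, a k ≠ 0 := by
    by_contra hcon
    push Not at hcon
    have h1 : (hom (w : E4) : LV 4) = y • hom (v : E4) := by
      rw [hw]
      simp [hcon]
    have hy : y = 1 := by
      have := congrFun h1 none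
      simpa [hom] using this.symm
    apply hvw
    apply Subtype.ext
    ext i
    have := congrFun h1 (some i)
    rw [hy] at this
    simpa [hom] using this.symm
  obtain ⟨k, hk⟩ := hk
  obtain ⟨-, hkv, hface⟩ := hak k hk
  have hvk : (v : E4) ≠ (k : E4) := fun h => hkv (Subtype.ext h.symm)
  have hexp : IsExposed ℝ P (segment ℝ (v : E4) (k : E4)) := by
    have h1 := (Pool.Agent.H780R3.ES.t 4 V {(v : E4), (k : E4)}
      (by
        rintro x (rfl | rfl)
        · exact v.2
        · exact k.2) ⟨v, Or.inl rfl⟩).2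
    rw [hP, convexHull_pair] at h1
    apply h1
    have h2 : {i : EP V | (i : E4) ∈ ({(v : E4), (k : E4)} : Set E4)} = {v, k} := by
      ext i
      simp only [Set.mem_ofPred_eq, Set.mem_insert_iff, Set.mem_singleton_iff, Subtype.ext_iff]
    rw [h2]
    exact hface
  have hvP : (v : E4) ∈ P.extremePoints ℝ := hEP ▸ v.2
  have hkP : (k : E4) ∈ P.extremePoints ℝ := hEP ▸ k.2
  obtain ⟨p, hp, hp1, -⟩ := hE v hvP k hkP hvk hexp
  refine ⟨p, ?_, hp1.le⟩
  have hc : Convex ℝ P := by rw [← hP]; exact convex_convexHull ℝ _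
  exact hc.segment_subset hvP.1 hkP.1 hp

theorem ext_finset {P : Set E4} (hP : IsPolytope4 P) :
    ∃ V : Finset E4, (V : Set E4) = P.extremePoints ℝ ∧ convexHull ℝ (V : Set E4) = P := by
  obtain ⟨⟨S, rfl⟩, -⟩ := hP
  have h1 : (Set.extremePoints ℝ (convexHull ℝ (S : Set E4))).Finite :=
    S.finite_toSet.subset extremePoints_convexHull_subset
  refine ⟨h1.toFinset, h1.coe_toFinset, ?_⟩
  rw [h1.coe_toFinset]
  have h2 := closure_convexHull_extremePoints
    (S.finite_toSet.isCompact_convexHull (𝕜 := ℝ)) (convex_convexHull ℝ (S : Set E4))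
  conv_rhs => rw [← h2]
  exact (h1.isCompact_convexHull (𝕜 := ℝ)).isClosed.closure_eq.symm

theorem comb_trans {P Q T : Set E4} (hPT : CombEquiv P T) (hQT : CombEquiv Q T) :
    CombEquiv P Q := by
  obtain ⟨f, hf, hf2⟩ := hPT
  obtain ⟨g, hg, hg2⟩ := hQT
  have hinv := hg.invOn_invFunOn
  have hg' : Set.BijOn (Function.invFunOn g (Q.extremePoints ℝ)) (T.extremePoints ℝ)
      (Q.extremePoints ℝ) := (Set.bijOn_comm hinv).2 hg
  refine ⟨Function.invFunOn g (Q.extremePoints ℝ) ∘ f, hg'.comp hf, ?_⟩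
  intro S hS
  rw [hf2 S hS]
  have hfS : f '' S ⊆ T.extremePoints ℝ := by
    rw [← hf.image_eq]; exact Set.image_mono hS
  have hS' : (Function.invFunOn g (Q.extremePoints ℝ) ∘ f) '' S ⊆ Q.extremePoints ℝ := by
    rw [Set.image_comp]
    have := Set.image_mono (f := Function.invFunOn g (Q.extremePoints ℝ)) hfS
    rwa [hg'.image_eq] at this
  rw [hg2 _ hS', Set.image_comp]
  have : g '' (Function.invFunOn g (Q.extremePoints ℝ) '' (f '' S)) = f '' S := by
    rw [← Set.image_comp]
    have h : Set.EqOn (g ∘ Function.invFunOn g (Q.extremePoints ℝ)) id (f '' S) :=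
      fun x hx => hinv.2 (hfS hx)
    rw [h.image_eq, Set.image_id]
  rw [this]

theorem mobiusUnique (T : Set E4) : MobiusUnique T := by
  intro P Q hP hQ hEP hEQ hPT hQT
  obtain ⟨V, hV, hVP⟩ := ext_finset hP
  obtain ⟨W, hW, hWQ⟩ := ext_finset hQ
  obtain ⟨f, hf, hf2⟩ := comb_trans hPT hQT
  obtain ⟨M, hM, hne, him⟩ := Pool.Agent.H242R3.ES.Full.finalG Pool.Agent.H841.ESK8a.t
    Pool.Agent.Q223.K8b.t 3 (by norm_num) V W (by rw [hVP]; exact hP.2) (by rw [hWQ]; exact hQ.2)
    (by
      intro a ha b hb hab hexp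
      rw [hVP] at hexp
      exact hEP a (hV ▸ ha) b (hV ▸ hb) hab hexp)
    (by
      intro a ha b hb hab hexp
      rw [hWQ] at hexp
      exact hEQ a (hW ▸ ha) b (hW ▸ hb) hab hexp)
    (by
      refine ⟨f, ?_, ?_⟩
      · show Set.BijOn f (Set.extremePoints ℝ (convexHull ℝ (V : Set E4)))
          (Set.extremePoints ℝ (convexHull ℝ (W : Set E4)))
        rw [hVP, hWQ]; exact hf
      · show ∀ S ⊆ Set.extremePoints ℝ (convexHull ℝ (V : Set E4)), _
        rw [hVP, hWQ]; exact hf2)
  have hML : Pool.Agent.Q223.Mob.IsL M := hM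
  have hc : Convex ℝ P := by rw [← hVP]; exact convex_convexHull ℝ _
  rw [hVP] at hne him
  rw [hWQ] at him
  have hne' : ∀ x ∈ P, Pool.Agent.Q223.Mob.tau M x ≠ 0 := hne
  have him' : Pool.Agent.Q223.Mob.mb M '' P = Q := him
  have hpb := edge_point V hV hVP hP.2 hEP
  have hext := Pool.Agent.Q223.Mob.mb_extreme hML hc hne'
  rw [him'] at hext
  refine ⟨M, hM, ?_, Pool.Agent.Q223.Mob.mb_sphere hML, hne, him, ?_⟩
  · intro x hx h0
    have h1 := Pool.Agent.Q223.Mob.tau_ball hML x (le_of_eq hx)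
    have h2 : Pool.Agent.Q223.Mob.tau M x = 0 := h0
    rw [h2, zero_mul] at h1
    exact lt_irrefl _ h1
  · rw [← hext, Set.image_image, Set.image_image]
    apply Set.image_congr
    intro v hv
    have hvP : v ∈ P := hv.1
    have hcap : ∀ u : E4, cap u = {x | ∑ i, x i ^ 2 = 1 ∧ 1 ≤ ∑ i, x i * u i} := fun u => rfl
    rw [hcap, hcap]
    exact Pool.Agent.Q223.Mob.mb_cap hML hc hne' hpb hvP

/-- The 600-cell and the 120-cell are Möbius unique. -/
theorem result : MobiusUnique cell600 ∧ MobiusUnique cell120 :=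
  ⟨mobiusUnique _, mobiusUnique _⟩

end Pool.Agent.Results.MP_dcc731_co.SixHundredCell
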